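import Pool.Agent.Q53.SQ.Star

/-!
Project SQ (helper16), job C1: the family K1.
-/

set_option autoImplicit false

namespace Pool.Agent.Q53.SQ

open Q16.SQ Pool.Agent.Helper549.Tri Pool.Agent.Q224.SQ
open scoped RealInnerProductSpace

lemma rg (A B C : E2) : Set.range ![A, B, C] = {A, B, C} := by
  ext x
  simp only [Set.mem_range, Set.mem_insert_iff, Set.mem_singleton_iff]
  constructor
  · rintro ⟨i, rfl⟩
    fin_cases i <;> simp
  · rintro (rfl | rfl | rfl)
    · exact ⟨0, rfl⟩
    · exact ⟨1, rfl⟩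
    · exact ⟨2, rfl⟩

lemma tri_rot (A B C : E2) : TriSet ![A, B, C] = TriSet ![B, C, A] := by
  unfold TriSet
  rw [rg, rg]
  congr 1
  ext x
  simp only [Set.mem_insert_iff, Set.mem_singleton_iff]
  tauto

lemma tri_sw (A B C : E2) : TriSet ![A, B, C] = TriSet ![A, C, B] := by
  unfold TriSet
  rw [rg, rg]
  congr 1
  ext x
  simp only [Set.mem_insert_iff, Set.mem_singleton_iff]
  tauto

lemma ai_sw (A B C : E2) (hT : AffineIndependent ℝ ![A, B, C]) :
    AffineIndependent ℝ ![A, C, B] := by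
  rw [aff_iff]
  intro w h1 h2
  simp only [Matrix.cons_val_zero, Matrix.cons_val_one, Matrix.cons_val] at h2
  have h := (aff_iff _).1 hT ![w 0, w 2, w 1] (by
    simp only [Matrix.cons_val_zero, Matrix.cons_val_one, Matrix.cons_val]
    linarith) (by
    simp only [Matrix.cons_val_zero, Matrix.cons_val_one, Matrix.cons_val]
    rw [← h2]
    abel)
  simp only [Matrix.cons_val_zero, Matrix.cons_val_one, Matrix.cons_val] at h
  obtain ⟨a, b, c⟩ := h
  exact ⟨a, c, b⟩

/-- distance from the vertex of a triangle to a point given by coordinates -/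
lemma dist_sq (A B C : E2) (s t : ℝ) :
    ‖s • (B - A) + t • (C - A)‖ ^ 2 = s ^ 2 * dist A B ^ 2 + t ^ 2 * dist A C ^ 2 +
      s * t * (dist A B ^ 2 + dist A C ^ 2 - dist B C ^ 2) := by
  have e : B - C = (B - A) - (C - A) := by abel
  rw [dist_comm A B, dist_comm A C, dist_eq_norm B A, dist_eq_norm C A, dist_eq_norm B C, e,
    norm_add_sq_real, norm_sub_sq_real (B - A) (C - A), norm_smul, norm_smul, mul_pow, mul_pow,
    Real.norm_eq_abs, Real.norm_eq_abs, sq_abs, sq_abs, real_inner_smul_left,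
    real_inner_smul_right]
  ring

lemma norm_of_sq {v : E2} {r : ℝ} (hr : 0 ≤ r) (h : ‖v‖ ^ 2 = r ^ 2) : ‖v‖ = r :=
  (pow_left_inj₀ (norm_nonneg _) hr (by norm_num)).1 h

lemma ai_uv (A B C : E2) (hT : AffineIndependent ℝ ![A, B, C]) (s t : ℝ) (hs : s ≠ 0)
    (ht : t ≠ 0) : AffineIndependent ℝ ![0, s • (C - B), t • (C - A)] := by
  rw [aff_iff]
  intro w h1 h2
  simp only [Matrix.cons_val_zero, Matrix.cons_val_one, Matrix.cons_val] at h2
  have h := (aff_iff _).1 hT ![-(w 2 * t), -(w 1 * s), w 1 * s + w 2 * t] (by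
    simp only [Matrix.cons_val_zero, Matrix.cons_val_one, Matrix.cons_val]
    ring) (by
    simp only [Matrix.cons_val_zero, Matrix.cons_val_one, Matrix.cons_val]
    rw [← h2]
    module)
  simp only [Matrix.cons_val_zero, Matrix.cons_val_one, Matrix.cons_val] at h
  obtain ⟨p, q, r⟩ := h
  have e2 : w 2 = 0 := by
    rcases mul_eq_zero.1 (neg_eq_zero.1 p) with h | h
    · exact h
    · exact absurd h ht
  have e1 : w 1 = 0 := by
    rcases mul_eq_zero.1 (neg_eq_zero.1 q) with h | h
    · exact h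
    · exact absurd h hs
  exact ⟨by linarith, e1, e2⟩

/-- the geometric part -/
lemma geo (h1 : S_GLUE) (h4 : S_DIAG) (h5 : S_STAR) (h6 : S_SPLIT) (a b c : ℝ) (A B C : E2)
    (hT : AffineIndependent ℝ ![A, B, C]) (x y z : ℝ) (hx : 0 < x) (hy : 0 < y) (hz : 0 < z)
    (_hx1 : x < 1) (_hy1 : y < 1) (hs : x + y + z = 1) (P Q R : E2)
    (hP : P = x • A + y • B + z • C) (hQ : Q = x • A + (1 - x) • C)
    (hR : R = y • B + (1 - y) • C)
    (t1 : AffineIndependent ℝ ![A, B, P] → Tlb a b c (TriOf A B P))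
    (t2 : AffineIndependent ℝ ![P, B, R] → Tlb a b c (TriOf P B R))
    (t3 : AffineIndependent ℝ ![P, A, Q] → Tlb a b c (TriOf P A Q))
    (t4 : Tlb a b c (Par P (y • (C - B)) (x • (C - A)))) : Tlb a b c (TriOf A B C) := by
  obtain ⟨i1, i2, i3, hU, hD1, hD2⟩ := h5 A B C x y z hT hx hy hz hs P hP
  have hPBC : AffineIndependent ℝ ![P, B, C] := rot _ _ _ (rot _ _ _ i2)
  have hPAC : AffineIndependent ℝ ![P, A, C] := ai_sw _ _ _ (rot _ _ _ (rot _ _ _ i3))
  have hR' : AffineMap.lineMap B C (1 - y) = R := by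
    rw [AffineMap.lineMap_apply_module, hR]
    congr 2
    ring
  have hQ' : AffineMap.lineMap A C (1 - x) = Q := by
    rw [AffineMap.lineMap_apply_module, hQ]
    congr 2
    ring
  obtain ⟨j1, j2, hU2, hE2⟩ := h6 ![P, B, C] hPBC (1 - y) (by linarith) (by linarith)
  obtain ⟨k1, k2, hU3, hE3⟩ := h6 ![P, A, C] hPAC (1 - x) (by linarith) (by linarith)
  simp only [Matrix.cons_val_zero, Matrix.cons_val_one, Matrix.cons_val, hR'] at j1 j2 hU2 hE2
  simp only [Matrix.cons_val_zero, Matrix.cons_val_one, Matrix.cons_val, hQ'] at k1 k2 hU3 hE3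
  have hd := h4 P (y • (C - B)) (x • (C - A)) (ai_uv A B C hT y x hy.ne' hx.ne')
  have eQ : P + y • (C - B) = Q := by
    rw [hP, hQ, ← sub_eq_zero]
    have : z = 1 - x - y := by linarith
    rw [this]
    module
  have eR : P + x • (C - A) = R := by
    rw [hP, hR, ← sub_eq_zero]
    have : z = 1 - x - y := by linarith
    rw [this]
    module
  have eC : P + y • (C - B) + x • (C - A) = C := by
    rw [hP, ← sub_eq_zero]
    have : z = 1 - x - y := by linarith
    rw [this]
    module
  rw [eC, eQ, eR] at hd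
  -- coordinates
  have cPar : ∀ p ∈ Par P (y • (C - B)) (x • (C - A)),
      (bas _ hT).coord 0 p ≤ x ∧ (bas _ hT).coord 1 p ≤ y := by
    rintro p ⟨s, t, s0, s1, t0, t1, rfl⟩
    obtain ⟨c0, c1, -⟩ := cuniq _ hT (P + s • y • (C - B) + t • x • (C - A)) (x - t * x)
      (y - s * y) (z + s * y + t * x) (by linarith) (by
        simp only [Matrix.cons_val_zero, Matrix.cons_val_one, Matrix.cons_val, hP]
        module)
    rw [c0, c1]
    exact ⟨by nlinarith, by nlinarith⟩
  have cQ : ∀ p : E2, (bas _ hT).coord 0 p = x + (bas _ k1).coord 1 p * (1 - x) ∧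
      (bas _ hT).coord 1 p = (bas _ k1).coord 0 p * y := by
    intro p
    have g1 := csum _ k1 p
    have g2 := cself _ k1 p
    generalize (bas _ k1).coord 0 p = v0 at *
    generalize (bas _ k1).coord 1 p = v1 at *
    generalize (bas _ k1).coord 2 p = v2 at *
    simp only [Matrix.cons_val_zero, Matrix.cons_val_one, Matrix.cons_val, hP, hQ] at g2
    obtain ⟨c0, c1, -⟩ := cuniq _ hT p (v0 * x + v1 + v2 * x) (v0 * y) (v0 * z + v2 * (1 - x))
      (by linear_combination g1 + v0 * hs) (by
        simp only [Matrix.cons_val_zero, Matrix.cons_val_one, Matrix.cons_val]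
        rw [← g2]
        module)
    rw [c0, c1]
    exact ⟨by linear_combination x * g1, rfl⟩
  have cR : ∀ p : E2, (bas _ hT).coord 1 p = y + (bas _ j1).coord 1 p * (1 - y) := by
    intro p
    have g1 := csum _ j1 p
    have g2 := cself _ j1 p
    generalize (bas _ j1).coord 0 p = v0 at *
    generalize (bas _ j1).coord 1 p = v1 at *
    generalize (bas _ j1).coord 2 p = v2 at *
    simp only [Matrix.cons_val_zero, Matrix.cons_val_one, Matrix.cons_val, hP, hR] at g2
    obtain ⟨-, c1, -⟩ := cuniq _ hT p (v0 * x) (v0 * y + v1 + v2 * y) (v0 * z + v2 * (1 - y))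
      (by linear_combination g1 + v0 * hs) (by
        simp only [Matrix.cons_val_zero, Matrix.cons_val_one, Matrix.cons_val]
        rw [← g2]
        module)
    rw [c1]
    linear_combination y * g1
  -- the parts
  have D1 : Disjoint (interior (Par P (y • (C - B)) (x • (C - A)))) (interior (TriOf P A Q)) := by
    rw [Set.disjoint_left]
    intro p hp hp'
    have g1 := (cPar p (interior_subset hp)).1
    unfold TriOf at hp'
    rw [mem_int _ k1] at hp'
    rw [(cQ p).1] at g1
    have : 0 < (bas _ k1).coord 1 p * (1 - x) := mul_pos hp'.2.1 (by linarith)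
    linarith
  have D2 : Disjoint (interior (TriOf P B R))
      (interior (Par P (y • (C - B)) (x • (C - A)) ∪ TriOf P A Q)) := by
    rw [Set.disjoint_left]
    intro p hp hp'
    have g0 := interior_subset hp'
    unfold TriOf at hp
    rw [mem_int _ j1] at hp
    have g3 : 0 < (bas _ j1).coord 1 p * (1 - y) := mul_pos hp.2.1 (by linarith)
    have g4 := cR p
    rcases g0 with g0 | g0
    · have := (cPar p g0).2
      linarith
    · unfold TriOf at g0
      rw [mem_tri _ k1] at g0
      have g5 := csum _ k1 p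
      have g6 := (cQ p).2
      have g7 : (bas _ k1).coord 0 p ≤ 1 := by linarith [g0.2.1, g0.2.2]
      have g8 : (bas _ k1).coord 0 p * y ≤ 1 * y := mul_le_mul_of_nonneg_right g7 hy.le
      linarith
  have e1 : TriOf B C P ∪ TriOf C A P =
      TriOf P B R ∪ (Par P (y • (C - B)) (x • (C - A)) ∪ TriOf P A Q) := by
    have a1 : TriOf B C P = TriOf P B R ∪ TriOf P R C := by
      unfold TriOf
      rw [← tri_rot P B C, ← hU2, tri_sw P C R]
    have a2 : TriOf C A P = TriOf P A Q ∪ TriOf P Q C := by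
      unfold TriOf
      rw [← tri_rot P C A, ← tri_sw P A C, ← hU3, tri_sw P C Q]
    rw [a1, a2, hd]
    ext p
    simp only [Set.mem_union]
    tauto
  rw [hU, e1]
  refine h1 a b c _ _ (t1 i1) (h1 a b c _ _ (t2 j1) (h1 a b c _ _ t4 (t3 k1) D1) D2) ?_
  rw [← e1]
  exact hD1

theorem t_C1 (h1 : S_GLUE) (h2 : S_TRIK) (h3 : S_PARA) (h4 : S_DIAG) (h5 : S_STAR)
    (h6 : S_SPLIT) : S_C1 := by
  intro e a b c he ha hb hc habc A B C hT hBC hAC hAB
  have ha' : (0 : ℝ) < a := by exact_mod_cast ha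
  have hb' : (0 : ℝ) < b := by exact_mod_cast hb
  have hc' : (0 : ℝ) < c := by exact_mod_cast hc
  have habc' : (a : ℝ) ^ 2 + b * c = c ^ 2 := by exact_mod_cast habc
  have ha2 : (a : ℝ) ^ 2 = c * (c - b) := by linarith
  have hcb : (b : ℝ) < c := by
    have : 0 < (c : ℝ) * (c - b) := by rw [← ha2]; positivity
    have := (mul_pos_iff_of_pos_left hc').1 this
    linarith
  obtain ⟨x, hx⟩ : ∃ x : ℝ, x = (c - b) / c := ⟨_, rfl⟩
  obtain ⟨y, hy⟩ : ∃ y : ℝ, y = b / (b + c) := ⟨_, rfl⟩
  obtain ⟨z, hz⟩ : ∃ z : ℝ, z = b ^ 2 / (c * (b + c)) := ⟨_, rfl⟩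
  have hx0 : 0 < x := by rw [hx]; exact div_pos (by linarith) hc'
  have hy0 : 0 < y := by rw [hy]; positivity
  have hz0 : 0 < z := by rw [hz]; positivity
  have hs : x + y + z = 1 := by rw [hx, hy, hz]; field_simp; ring
  have hx1 : 1 - x = b / c := by rw [hx]; field_simp; ring
  have hy1 : 1 - y = c / (b + c) := by rw [hy]; field_simp; ring
  obtain ⟨P, hP⟩ : ∃ P : E2, P = x • A + y • B + z • C := ⟨_, rfl⟩
  obtain ⟨Q, hQ⟩ : ∃ Q : E2, Q = x • A + (1 - x) • C := ⟨_, rfl⟩
  obtain ⟨R, hR⟩ : ∃ R : E2, R = y • B + (1 - y) • C := ⟨_, rfl⟩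
  -- the lengths
  have dAP : dist A P = e * (c * b ^ 2) := by
    rw [dist_comm, dist_eq_norm]
    refine norm_of_sq (by positivity) ?_
    have e1 : P - A = y • (B - A) + z • (C - A) := by
      rw [hP, ← sub_eq_zero]
      have : x = 1 - y - z := by linarith
      rw [this]
      module
    rw [e1, dist_sq, hAB, hAC, hBC, hy, hz]
    have : (e * (c * (a * (b + c)))) ^ 2 = e ^ 2 * c ^ 2 * (a : ℝ) ^ 2 * (b + c) ^ 2 := by ring
    rw [this, ha2]
    field_simp
    ring
  have dBP : dist B P = e * (c * (a * b)) := by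
    rw [dist_comm, dist_eq_norm]
    refine norm_of_sq (by positivity) ?_
    have e1 : P - B = x • (A - B) + z • (C - B) := by
      rw [hP, ← sub_eq_zero]
      have : y = 1 - x - z := by linarith
      rw [this]
      module
    rw [e1, dist_sq, dist_comm B A, hAB, hAC, hBC, hx, hz]
    have : (e * (c * (a * (b + c)))) ^ 2 = e ^ 2 * c ^ 2 * (a : ℝ) ^ 2 * (b + c) ^ 2 := by ring
    rw [this]
    have h' : (e * (c * (a * b))) ^ 2 = e ^ 2 * c ^ 2 * (a : ℝ) ^ 2 * b ^ 2 := by ring
    rw [h', ha2]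
    field_simp
    ring
  have dAQ : dist A Q = e * (c * (b * c)) := by
    rw [dist_comm, dist_eq_norm]
    have e1 : Q - A = (1 - x) • (C - A) := by
      rw [hQ]
      module
    rw [e1, norm_smul, ← dist_eq_norm C A, dist_comm C A, hAC, hx1,
      Real.norm_of_nonneg (by positivity)]
    field_simp
  have dBR : dist B R = e * (c * (a * c)) := by
    rw [dist_comm, dist_eq_norm]
    have e1 : R - B = (1 - y) • (C - B) := by
      rw [hR]
      module
    rw [e1, norm_smul, ← dist_eq_norm C B, dist_comm C B, hBC, hy1,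
      Real.norm_of_nonneg (by positivity)]
    field_simp
  have dPQ : dist P Q = e * (c * (a * b)) := by
    rw [dist_eq_norm]
    have e1 : P - Q = y • (B - C) := by
      rw [hP, hQ, ← sub_eq_zero]
      have : z = 1 - x - y := by linarith
      rw [this]
      module
    rw [e1, norm_smul, ← dist_eq_norm, hBC, hy, Real.norm_of_nonneg (by positivity)]
    field_simp
  have dPR : dist P R = e * (c * a ^ 2) := by
    rw [dist_eq_norm]
    have e1 : P - R = x • (A - C) := by
      rw [hP, hR, ← sub_eq_zero]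
      have : z = 1 - x - y := by linarith
      rw [this]
      module
    rw [e1, norm_smul, ← dist_eq_norm, hAC, Real.norm_of_nonneg hx0.le, hx, ha2]
    field_simp
  refine geo h1 h4 h5 h6 (e * a) (e * b) (e * c) A B C hT x y z hx0 hy0 hz0
    (by have : 0 < 1 - x := by rw [hx1]; positivity
        linarith)
    (by have : 0 < 1 - y := by rw [hy1]; positivity
        linarith) hs P Q R hP hQ hR ?_ ?_ ?_ ?_
  · intro hI
    refine h2 (e * a) (e * b) (e * c) (c * b) (by positivity) A B P hI ?_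
    rw [dBP, dAP, hAB]
    push_cast
    left
    refine ⟨?_, ?_, ?_⟩ <;> ring
  · intro hI
    refine h2 (e * a) (e * b) (e * c) (c * a) (by positivity) P B R hI ?_
    rw [dBR, dPR, dist_comm P B, dBP]
    push_cast
    right; right; right; right; left
    refine ⟨?_, ?_, ?_⟩ <;> ring
  · intro hI
    refine h2 (e * a) (e * b) (e * c) (c * b) (by positivity) P A Q hI ?_
    rw [dAQ, dPQ, dist_comm P A, dAP]
    push_cast
    right; right; right; right; left
    refine ⟨?_, ?_, ?_⟩ <;> ring
  · have g := h3 (e * a) (e * b) (e * c) (c * b) (a ^ 2) (by positivity) (by positivity) P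
      ((1 / (c * (b + c) : ℝ)) • (C - B)) ((1 / (c : ℝ) ^ 2) • (C - A))
      (ai_uv A B C hT _ _ (by positivity) (by positivity)) ?_
    · have e1 : (((c * b : ℕ) : ℝ)) • (1 / (c * (b + c) : ℝ)) • (C - B) = y • (C - B) := by
        rw [smul_smul, hy]
        congr 1
        push_cast
        field_simp
      have e2 : (((a ^ 2 : ℕ) : ℝ)) • (1 / (c : ℝ) ^ 2) • (C - A) = x • (C - A) := by
        rw [smul_smul, hx]
        congr 1
        push_cast
        rw [ha2]
        field_simp
      rw [e1, e2] at g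
      exact g
    · have n1 : ‖(1 / (c * (b + c) : ℝ)) • (C - B)‖ = e * a := by
        rw [norm_smul, ← dist_eq_norm, dist_comm C B, hBC, Real.norm_of_nonneg (by positivity)]
        field_simp
      have n2 : ‖(1 / (c : ℝ) ^ 2) • (C - A)‖ = e * c := by
        rw [norm_smul, ← dist_eq_norm, dist_comm C A, hAC, Real.norm_of_nonneg (by positivity)]
        field_simp
      have n3 : ‖(1 / (c * (b + c) : ℝ)) • (C - B) - (1 / (c : ℝ) ^ 2) • (C - A)‖ = e * b := by
        refine norm_of_sq (by positivity) ?_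
        have e1 : (1 / (c * (b + c) : ℝ)) • (C - B) - (1 / (c : ℝ) ^ 2) • (C - A) =
            (1 / (c : ℝ) ^ 2) • (A - C) + (-(1 / (c * (b + c) : ℝ))) • (B - C) := by module
        rw [e1, dist_sq, dist_comm C A, dist_comm C B, hAB, hAC, hBC]
        have : (e * (c * (a * (b + c)))) ^ 2 = e ^ 2 * c ^ 2 * (a : ℝ) ^ 2 * (b + c) ^ 2 := by ring
        rw [this, ha2]
        field_simp
        ring
      rw [n1, n2, n3]
      right; left
      exact ⟨rfl, rfl, rfl⟩

end Pool.Agent.Q53.SQ
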