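import Pool.Agent.Q16.SQ.Stm3
import Pool.Agent.Q224.SQ.SPLIT

/-!
Project SQ (helper16), job STAR: triangulation by an interior point.
-/

set_option autoImplicit false

namespace Pool.Agent.Q53.SQ

open Q16.SQ Pool.Agent.Helper549.Tri Pool.Agent.Q224.SQ

section

variable (A B C : E2) (hT : AffineIndependent ℝ ![A, B, C]) (x y z : ℝ)

include hT in
lemma st1 (hz : 0 < z) (P : E2) (hP : P = x • A + y • B + z • C) (hs : x + y + z = 1) :
    AffineIndependent ℝ ![A, B, P] := by
  rw [aff_iff]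
  intro w h1 h2
  simp only [Matrix.cons_val_zero, Matrix.cons_val_one, Matrix.cons_val, hP] at h2
  have h := (aff_iff _).1 hT ![w 0 + w 2 * x, w 1 + w 2 * y, w 2 * z] (by
    simp only [Matrix.cons_val_zero, Matrix.cons_val_one, Matrix.cons_val]
    linear_combination h1 + w 2 * hs) (by
    simp only [Matrix.cons_val_zero, Matrix.cons_val_one, Matrix.cons_val]
    rw [← h2]
    module)
  simp only [Matrix.cons_val_zero, Matrix.cons_val_one, Matrix.cons_val] at h
  obtain ⟨a, b, c⟩ := h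
  have hc : w 2 = 0 := by
    rcases mul_eq_zero.1 c with c | c
    · exact c
    · exact absurd c hz.ne'
  rw [hc] at a b
  exact ⟨by linarith, by linarith, hc⟩

include hT in
lemma rot : AffineIndependent ℝ ![B, C, A] := by
  rw [aff_iff]
  intro w h1 h2
  simp only [Matrix.cons_val_zero, Matrix.cons_val_one, Matrix.cons_val] at h2
  have h := (aff_iff _).1 hT ![w 2, w 0, w 1] (by
    simp only [Matrix.cons_val_zero, Matrix.cons_val_one, Matrix.cons_val]
    linarith) (by
    simp only [Matrix.cons_val_zero, Matrix.cons_val_one, Matrix.cons_val]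
    rw [← h2]
    abel)
  simp only [Matrix.cons_val_zero, Matrix.cons_val_one, Matrix.cons_val] at h
  obtain ⟨a, b, c⟩ := h
  exact ⟨b, c, a⟩

/-- coordinates with respect to the triangle `A B P` -/
lemma stc (P : E2) (hP : P = x • A + y • B + z • C) (hs : x + y + z = 1)
    (hI : AffineIndependent ℝ ![A, B, P]) (p : E2) :
    (bas _ hT).coord 0 p = (bas _ hI).coord 0 p + (bas _ hI).coord 2 p * x ∧
    (bas _ hT).coord 1 p = (bas _ hI).coord 1 p + (bas _ hI).coord 2 p * y ∧
    (bas _ hT).coord 2 p = (bas _ hI).coord 2 p * z := by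
  have h1 := csum _ hI p
  have h2 := cself _ hI p
  generalize (bas _ hI).coord 0 p = p0 at *
  generalize (bas _ hI).coord 1 p = p1 at *
  generalize (bas _ hI).coord 2 p = p2 at *
  simp only [Matrix.cons_val_zero, Matrix.cons_val_one, Matrix.cons_val, hP] at h2
  apply cuniq _ hT p
  · linear_combination h1 + p2 * hs
  · simp only [Matrix.cons_val_zero, Matrix.cons_val_one, Matrix.cons_val]
    rw [← h2]
    module

end

lemma rotc (A B C : E2) (hT : AffineIndependent ℝ ![A, B, C])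
    (hR : AffineIndependent ℝ ![B, C, A]) (p : E2) :
    (bas _ hR).coord 0 p = (bas _ hT).coord 1 p ∧ (bas _ hR).coord 1 p = (bas _ hT).coord 2 p ∧
    (bas _ hR).coord 2 p = (bas _ hT).coord 0 p := by
  have h1 := csum _ hT p
  have h2 := cself _ hT p
  apply cuniq _ hR p
  · linarith
  · simp only [Matrix.cons_val_zero, Matrix.cons_val_one, Matrix.cons_val] at h2 ⊢
    conv_rhs => rw [← h2]
    abel

theorem t_STAR : S_STAR := by
  intro A B C x y z hT hx hy hz hs P hP
  have hR := rot A B C hT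
  have hR2 := rot B C A hR
  have i1 : AffineIndependent ℝ ![A, B, P] := st1 A B C hT x y z hz P hP hs
  have hP2 : P = y • B + z • C + x • A := by rw [hP]; abel
  have hP3 : P = z • C + x • A + y • B := by rw [hP]; abel
  have i2 : AffineIndependent ℝ ![B, C, P] :=
    st1 B C A hR y z x hx P hP2 (by linarith)
  have i3 : AffineIndependent ℝ ![C, A, P] :=
    st1 C A B hR2 z x y hy P hP3 (by linarith)
  have key : ∀ p : E2, ∃ al be ga : ℝ,
      ((bas _ hT).coord 0 p = be * x ∧ (bas _ hT).coord 1 p = ga * y ∧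
        (bas _ hT).coord 2 p = al * z) ∧
      ((bas _ i1).coord 0 p = x * (be - al) ∧ (bas _ i1).coord 1 p = y * (ga - al) ∧
        (bas _ i1).coord 2 p = al) ∧
      ((bas _ i2).coord 0 p = y * (ga - be) ∧ (bas _ i2).coord 1 p = z * (al - be) ∧
        (bas _ i2).coord 2 p = be) ∧
      ((bas _ i3).coord 0 p = z * (al - ga) ∧ (bas _ i3).coord 1 p = x * (be - ga) ∧
        (bas _ i3).coord 2 p = ga) := by
    intro p
    obtain ⟨a0, a1, a2⟩ := stc A B C hT x y z P hP hs i1 p
    obtain ⟨b0, b1, b2⟩ := stc B C A hR y z x P hP2 (by linarith) i2 p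
    obtain ⟨c0, c1, c2⟩ := stc C A B hR2 z x y P hP3 (by linarith) i3 p
    obtain ⟨r0, r1, r2⟩ := rotc A B C hT hR p
    obtain ⟨s0, s1, s2⟩ := rotc B C A hR hR2 p
    refine ⟨(bas _ i1).coord 2 p, (bas _ i2).coord 2 p, (bas _ i3).coord 2 p,
      ⟨?_, ?_, a2⟩, ⟨?_, ?_, rfl⟩, ⟨?_, ?_, rfl⟩, ?_, ?_, rfl⟩
    · linarith
    · linarith
    · linarith
    · linarith
    · linarith
    · linarith
    · linarith
    · linarith
  refine ⟨i1, i2, i3, ?_, ?_, ?_⟩
  · ext p
    unfold TriOf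
    rw [Set.mem_union, Set.mem_union, mem_tri _ hT, mem_tri _ i1, mem_tri _ i2, mem_tri _ i3]
    obtain ⟨al, be, ga, ⟨e0, e1, e2⟩, ⟨a0, a1, a2⟩, ⟨b0, b1, b2⟩, c0, c1, c2⟩ := key p
    rw [e0, e1, e2, a0, a1, a2, b0, b1, b2, c0, c1, c2]
    simp only [mul_nonneg_iff_of_pos_right hx, mul_nonneg_iff_of_pos_right hy,
      mul_nonneg_iff_of_pos_right hz, mul_nonneg_iff_of_pos_left hx,
      mul_nonneg_iff_of_pos_left hy, mul_nonneg_iff_of_pos_left hz, sub_nonneg]
    constructor
    · rintro ⟨h1, h2, h3⟩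
      rcases le_total al be with h | h
      · rcases le_total al ga with h' | h'
        · exact Or.inl ⟨h, h', h3⟩
        · exact Or.inr (Or.inr ⟨h', h'.trans h, h2⟩)
      · rcases le_total be ga with h' | h'
        · exact Or.inr (Or.inl ⟨h', h, h1⟩)
        · exact Or.inr (Or.inr ⟨h'.trans h, h', h2⟩)
    · rintro (⟨h1, h2, h3⟩ | ⟨h1, h2, h3⟩ | ⟨h1, h2, h3⟩)
      · exact ⟨h3.trans h1, h3.trans h2, h3⟩
      · exact ⟨h3, h3.trans h1, h3.trans h2⟩
      · exact ⟨h3.trans h2, h3, h3.trans h1⟩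
  · rw [Set.disjoint_left]
    intro p hp hp'
    have hp2 := interior_subset hp'
    unfold TriOf at hp hp2
    rw [mem_int _ i1] at hp
    rw [Set.mem_union, mem_tri _ i2, mem_tri _ i3] at hp2
    obtain ⟨al, be, ga, ⟨e0, e1, e2⟩, ⟨a0, a1, a2⟩, ⟨b0, b1, b2⟩, c0, c1, c2⟩ := key p
    rw [a0, a1, a2] at hp
    rw [b0, b1, b2, c0, c1, c2] at hp2
    simp only [mul_nonneg_iff_of_pos_left hx, mul_pos_iff_of_pos_left hx,
      mul_nonneg_iff_of_pos_left hy, mul_pos_iff_of_pos_left hy,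
      mul_nonneg_iff_of_pos_left hz, sub_nonneg, sub_pos] at hp hp2
    rcases hp2 with h | h
    · exact absurd hp.1 (not_lt.2 h.2.1)
    · exact absurd hp.2.1 (not_lt.2 h.1)
  · rw [Set.disjoint_left]
    intro p hp hp'
    have hp2 := interior_subset hp'
    unfold TriOf at hp hp2
    rw [mem_int _ i2] at hp
    rw [mem_tri _ i3] at hp2
    obtain ⟨al, be, ga, ⟨e0, e1, e2⟩, ⟨a0, a1, a2⟩, ⟨b0, b1, b2⟩, c0, c1, c2⟩ := key p
    rw [b0, b1, b2] at hp
    rw [c0, c1, c2] at hp2
    simp only [mul_nonneg_iff_of_pos_left hx, mul_pos_iff_of_pos_left hy,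
      mul_nonneg_iff_of_pos_left hz, mul_pos_iff_of_pos_left hz, sub_nonneg, sub_pos] at hp hp2
    exact absurd hp.1 (not_lt.2 hp2.2.1)

end Pool.Agent.Q53.SQ
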